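import Pool.Agent.MNW.StmtsT

/-!
Rows BED and BEU of squad MNW: one branch, downwards and upwards.
-/

set_option autoImplicit false

namespace Pool.Agent.MNW.H61

open Pool.Agent.MNW Pool.Agent.MNT
open scoped Classical

/-- the step for an even cluster -/
theorem even_step (hE : EdgStmt) {g m : ℕ} {A u t k : ℝ} (N : Num g m A u t k) {a b : ℕ}
    (ha : Even a) (h2 : 2 ≤ a) (h2g : a ≤ 2 * g) (hb : 2 * b ≤ m) {q s l : ℝ} (hl : 0 < l)
    (hs : 0 ≤ s) (hq : 0 ≤ q) (hqb : q ≤ b) :
    1 / 30 * l + (s + l) * qf u t k a (b - (s / (s + l)) ^ 2 * q) ≤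
      s * qf u t k a (b - q) + l * w1 g m A a b - A * (s * l / (s + l)) * q :=
  hE g m A u t k a b q s l N.k_pos.le hl hs hq hqb (N.even a b ha h2 h2g hb)

theorem bed (hE : EdgStmt) (hM : MgrStmt) : BedStmt := by
  intro g m A u t k N V _ _ _ T G a b l s r q U hl L R D c hc hbc hU
  have hlc := hl c hc
  have hsc : 0 ≤ s c := by
    by_cases hG : G c
    · rw [R.s_grd c hG]
    · exact (R.s_pos c hG).le
  have hqf := (hM u t k N.u_pos N.k_pos N.psd).1
  have key : Even (a c) → 1 / 30 * (l c + ∑ d with d < c, l d) +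
      (s c + l c) * qf u t k (a c) (b c - (s c / (s c + l c)) ^ 2 * q c) ≤
        YD g m A a b l s q U c := by
    intro he
    have ha1 := L.a_pos c
    have ha2 := L.a_le c
    obtain ⟨w, hw⟩ := he
    have h1 := even_step hE N (a := a c) (b := b c) ⟨w, hw⟩ (by omega) (by omega) hbc hlc hsc
      (D.q_nn c) (D.q_le c)
    unfold YD
    linarith
  refine ⟨?_, key⟩
  by_cases he : Even (a c)
  · have h1 := key he
    have h2 : 0 ≤ (s c + l c) * qf u t k (a c) (b c - (s c / (s c + l c)) ^ 2 * q c) :=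
      mul_nonneg (by linarith) (hqf _ _)
    linarith
  · have hG : G c := by
      by_contra hG
      exact he (L.even c hG)
    have hs0 : s c = 0 := R.s_grd c hG
    have ho : Odd (a c) := Nat.not_even_iff_odd.1 he
    have h1 := N.odd (a c) (b c) ho (L.a_le c) (L.b_le c) (L.two_le c) (L.proper c hc)
    rw [hs0] at hU
    unfold YD
    rw [hs0]
    have h2 : l c * (1 / 30) ≤ l c * w1 g m A (a c) (b c) := mul_le_mul_of_nonneg_left h1 hlc.le
    have h3 : A * (0 * l c / (0 + l c)) * q c = 0 := by simp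
    rw [h3]
    linarith

theorem beu (hE : EdgStmt) (hM : MgrStmt) (hS : SywStmt) : BeuStmt := by
  intro g m A u t k N V _ _ _ T G a b l s r q U p Z hl L R D W c hc hbc hZ
  have hlc := hl c hc
  have hrc : 0 ≤ r c := by
    by_cases hG : G (T.par c)
    · rw [R.r_grd c hc hG]
    · exact (R.r_pos c hc hG).le
  have hqf := (hM u t k N.u_pos N.k_pos N.psd).1
  have hm2 : 2 ≤ m := le_trans (by norm_num) N.m_ge
  have key : Even (a c) → 1 / 30 * (l c + ∑ d with d ≠ ⊤ ∧ ¬ d ≤ c, l d) +
      (r c + l c) * qf u t k (2 * g + 2 - a c) (m - b c - (r c / (r c + l c)) ^ 2 * p c) ≤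
        YU g m A a b l r p Z c := by
    intro he
    have ha1 := L.a_pos c
    have ha2 := L.a_le c
    have hb2 := L.b_le c
    obtain ⟨w, hw⟩ := he
    have h1 := even_step hE N (a := 2 * g + 2 - a c) (b := m - b c) ⟨g + 1 - w, by omega⟩
      (by omega) (by omega) (by omega) hlc hrc (W.p_nn c hc) (by
        rw [Nat.cast_sub hb2]
        exact W.p_le c hc)
    rw [Nat.cast_sub hb2, Nat.cast_sub (by omega)] at h1
    push_cast at h1
    rw [hS g m A (a c) (b c) hm2] at h1
    unfold YU
    linarith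
  refine ⟨?_, key⟩
  by_cases he : Even (a c)
  · have h1 := key he
    have h2 : 0 ≤ (r c + l c) * qf u t k (2 * g + 2 - a c)
        (m - b c - (r c / (r c + l c)) ^ 2 * p c) :=
      mul_nonneg (by linarith) (hqf _ _)
    linarith
  · have hG : G (T.par c) := by
      by_contra hG
      apply he
      apply L.kids_even (T.par c) hG c
      unfold Tree.kids
      rw [Finset.mem_filter]
      exact ⟨Finset.mem_univ _, hc, rfl⟩
    have hr0 : r c = 0 := R.r_grd c hc hG
    have ho : Odd (a c) := Nat.not_even_iff_odd.1 he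
    have h1 := N.odd (a c) (b c) ho (L.a_le c) (L.b_le c) (L.two_le c) (L.proper c hc)
    rw [hr0] at hZ
    unfold YU
    rw [hr0]
    have h2 : l c * (1 / 30) ≤ l c * w1 g m A (a c) (b c) := mul_le_mul_of_nonneg_left h1 hlc.le
    have h3 : A * (0 * l c / (0 + l c)) * p c = 0 := by simp
    rw [h3]
    linarith

end Pool.Agent.MNW.H61
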