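import Pool.Agent.MNW.StmtsT

/-!
Row MGR of squad MNW: merging of branches.
-/

set_option autoImplicit false

namespace Pool.Agent.MNW.H61

open Pool.Agent.MNW

theorem cs (I : Type) (S : Finset I) (ρ x : I → ℝ) (h : ∀ i ∈ S, 0 < ρ i) :
    (∑ i ∈ S, (ρ i)⁻¹)⁻¹ * (∑ i ∈ S, x i) ^ 2 ≤ ∑ i ∈ S, ρ i * x i ^ 2 := by
  rcases S.eq_empty_or_nonempty with rfl | hS
  · simp
  · have h1 : 0 < ∑ i ∈ S, (ρ i)⁻¹ := Finset.sum_pos (fun i hi => inv_pos.2 (h i hi)) hS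
    have h2 : (∑ i ∈ S, x i) ^ 2 ≤ (∑ i ∈ S, (ρ i)⁻¹) * ∑ i ∈ S, ρ i * x i ^ 2 := by
      apply Finset.sum_sq_le_sum_mul_sum_of_sq_eq_mul
      · intro i hi
        exact (inv_pos.2 (h i hi)).le
      · intro i hi
        exact mul_nonneg (h i hi).le (sq_nonneg _)
      · intro i hi
        have h3 := (h i hi).ne'
        field_simp
    rw [inv_mul_le_iff₀ h1]
    exact h2

theorem qf_eq {u t k : ℝ} (hu : 0 < u) (a D : ℝ) :
    qf u t k a D = u * (a - t / (2 * u) * D) ^ 2 + (k - t ^ 2 / (4 * u)) * D ^ 2 := by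
  unfold qf
  field_simp
  ring

theorem coef_nn {u t k : ℝ} (hu : 0 < u) (h : t ^ 2 ≤ 4 * u * k) : 0 ≤ k - t ^ 2 / (4 * u) := by
  have h1 : t ^ 2 / (4 * u) ≤ k := by
    rw [div_le_iff₀ (by positivity)]
    linarith
  linarith

theorem mgr : MgrStmt := by
  intro u t k hu hk hp
  have hc := coef_nn hu hp
  refine ⟨fun a D => ?_, ?_⟩
  · rw [qf_eq hu]
    positivity
  · intro I S ρ X Y hρ
    have h0 : 0 ≤ (∑ i ∈ S, (ρ i)⁻¹)⁻¹ :=
      inv_nonneg.2 (Finset.sum_nonneg fun i hi => (inv_pos.2 (hρ i hi)).le)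
    have h1 := cs I S ρ (fun i => X i - t / (2 * u) * Y i) hρ
    have h2 := cs I S ρ Y hρ
    have h3 : (∑ i ∈ S, (X i - t / (2 * u) * Y i)) =
        (∑ i ∈ S, X i) - t / (2 * u) * ∑ i ∈ S, Y i := by
      rw [Finset.sum_sub_distrib, Finset.mul_sum]
    rw [h3] at h1
    rw [qf_eq hu]
    have h4 : ∑ i ∈ S, ρ i * qf u t k (X i) (Y i) =
        u * (∑ i ∈ S, ρ i * (X i - t / (2 * u) * Y i) ^ 2) +
        (k - t ^ 2 / (4 * u)) * ∑ i ∈ S, ρ i * Y i ^ 2 := by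
      rw [Finset.mul_sum, Finset.mul_sum, ← Finset.sum_add_distrib]
      apply Finset.sum_congr rfl
      intro i _
      rw [qf_eq hu]
      ring
    rw [h4]
    have h5 := mul_le_mul_of_nonneg_left h1 hu.le
    have h6 := mul_le_mul_of_nonneg_left h2 hc
    linarith

end Pool.Agent.MNW.H61
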